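import Pool.Agent.Helper95.TT.St
import Pool.Agent.Helper37.TW.S5

/-!
# Project TT, module A6: the Weil bound from Stepanov's method
-/

set_option autoImplicit false

namespace Pool.Agent.Helper98.TT

open Pool.Agent.Helper95.TT NumberField IsDedekindDomain Polynomial Finset

theorem a6_two {K : Type} [Field K] (a : K) : Nat.card {z : K // z ^ 2 = a} ≤ 2 := by
  classical
  rcases isEmpty_or_nonempty {z : K // z ^ 2 = a} with he | ⟨⟨b, hb⟩⟩
  · rw [Nat.card_of_isEmpty]
    omega
  · have hsub : {z : K | z ^ 2 = a} ⊆ (({b, -b} : Finset K) : Set K) := by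
      intro z hz
      have hz' : z ^ 2 = b ^ 2 := by
        rw [hb]
        exact hz
      rcases sq_eq_sq_iff_eq_or_eq_neg.1 hz' with h | h
      · simp [h]
      · simp [h]
    have h1 : {z : K | z ^ 2 = a}.ncard ≤ (({b, -b} : Finset K) : Set K).ncard :=
      Set.ncard_le_ncard hsub (Finset.finite_toSet _)
    rw [Set.ncard_coe_finset] at h1
    exact h1.trans (Finset.card_le_two)

theorem a6_chi {K : Type} [Field K] [Fintype K] [DecidableEq K] (c : ℕ)
    (hc : Fintype.card K = 2 * c + 1) (hc0 : c ≠ 0) (h2 : ringChar K ≠ 2) (a : K) :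
    (quadraticChar K a : ℤ) = (if a ^ c = 1 then 1 else 0) - (if a ^ c = -1 then 1 else 0) ∧
    (1 : ℤ) = (if a = 0 then 1 else 0) + ((if a ^ c = 1 then 1 else 0) +
      (if a ^ c = -1 then 1 else 0)) := by
  have hne : (-1 : K) ≠ 1 := Ring.neg_one_ne_one_of_char_ne_two h2
  have hcc : Fintype.card K / 2 = c := by omega
  have h3 := quadraticChar_eq_pow_of_char_ne_two' h2 a
  rw [hcc] at h3
  by_cases ha : a = 0
  · subst ha
    have h0 : (0 : K) ^ c = 0 := zero_pow hc0
    rw [h0]
    simp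
  · rcases quadraticChar_dichotomy ha with h | h
    · rw [h] at h3
      have h4 : a ^ c = 1 := by
        rw [← h3]
        simp
      rw [h, h4]
      simp [ha, hne.symm]
    · rw [h] at h3
      have h4 : a ^ c = -1 := by
        rw [← h3]
        simp
      rw [h, h4]
      simp [ha, hne]

theorem a6_count {K : Type} [Field K] [Fintype K] [DecidableEq K] (h2 : ringChar K ≠ 2)
    (F : K[X]) : (Nat.card {z : K × K // z.2 ^ 2 = F.eval z.1} : ℤ) =
      Fintype.card K + ∑ x : K, (quadraticChar K (F.eval x) : ℤ) := by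
  have e : {z : K × K // z.2 ^ 2 = F.eval z.1} ≃ Σ x : K, {y : K // y ^ 2 = F.eval x} :=
    { toFun := fun z => ⟨z.1.1, z.1.2, z.2⟩
      invFun := fun z => ⟨(z.1, z.2.1), z.2.2⟩
      left_inv := fun z => rfl
      right_inv := fun z => rfl }
  rw [Nat.card_congr e, Nat.card_eq_fintype_card, Fintype.card_sigma]
  push_cast
  have h3 : ∀ x : K, (Fintype.card {y : K // y ^ 2 = F.eval x} : ℤ) =
      1 + quadraticChar K (F.eval x) := by
    intro x
    have h4 := quadraticChar_card_sqrts h2 (F.eval x)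
    rw [add_comm, ← h4, Set.toFinset_card]
    congr 1
  rw [Finset.sum_congr rfl (fun x _ => h3 x), Finset.sum_add_distrib]
  simp

theorem a6_field {K : Type} [Field K] [Fintype K] (h2 : ringChar K ≠ 2) (F : K[X])
    (hF : Squarefree F) (hd : 1 ≤ F.natDegree) (i : ℕ) (hi : i ≤ 2) :
    |(Fintype.card K : ℝ) + 1 - ((Nat.card {z : K × K // z.2 ^ 2 = F.eval z.1} : ℝ) + i)| ≤
      (8 * F.natDegree + 12) * √(Fintype.card K) := by
  classical
  have hodd := FiniteField.odd_card_of_char_ne_two h2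
  obtain ⟨c, hc⟩ : ∃ c, Fintype.card K = 2 * c + 1 :=
    ⟨Fintype.card K / 2, by omega⟩
  have hcard : 1 < Fintype.card K := Fintype.one_lt_card
  have hc0 : c ≠ 0 := by omega
  have hN := a6_count h2 F
  set N := Nat.card {z : K × K // z.2 ^ 2 = F.eval z.1} with hNdef
  have hchi := a6_chi c hc hc0 h2
  -- the three sets
  have h0le : ((univ.filter fun x : K => F.eval x = 0).card) ≤ F.natDegree := by
    have hF0 : F ≠ 0 := by
      rintro rfl
      simp at hd
    have : (univ.filter fun x : K => F.eval x = 0) ⊆ F.roots.toFinset := by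
      intro x hx
      rw [mem_filter] at hx
      rw [Multiset.mem_toFinset, mem_roots hF0]
      exact hx.2
    exact (card_le_card this).trans ((Multiset.toFinset_card_le _).trans (card_roots' F))
  set S0 := (univ.filter fun x : K => F.eval x = 0).card with hS0
  set S1 := (univ.filter fun x : K => F.eval x ^ c = 1).card with hS1
  set S2 := (univ.filter fun x : K => F.eval x ^ c = -1).card with hS2
  have e1 : ∑ x : K, (quadraticChar K (F.eval x) : ℤ) = S1 - S2 := by
    rw [Finset.sum_congr rfl (fun x _ => (hchi (F.eval x)).1), Finset.sum_sub_distrib,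
      hS1, hS2, Finset.card_filter, Finset.card_filter]
    push_cast
    rfl
  have e2 : (Fintype.card K : ℤ) = S0 + (S1 + S2) := by
    have h5 : (Fintype.card K : ℤ) = ∑ x : K, (1 : ℤ) := by simp
    rw [h5, Finset.sum_congr rfl (fun x _ => (hchi (F.eval x)).2), Finset.sum_add_distrib,
      Finset.sum_add_distrib, hS0, hS1, hS2, Finset.card_filter, Finset.card_filter,
      Finset.card_filter]
    push_cast
    rfl
  rw [e1] at hN
  have hN' : (N : ℝ) = Fintype.card K + (S1 - S2) := by exact_mod_cast hN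
  have e2' : (Fintype.card K : ℝ) = S0 + (S1 + S2) := by exact_mod_cast e2
  have h0' : (S0 : ℝ) ≤ F.natDegree := by exact_mod_cast h0le
  have hiR : (i : ℝ) ≤ 2 := by exact_mod_cast hi
  have hi0 : (0 : ℝ) ≤ i := Nat.cast_nonneg _
  have hS0' : (0 : ℝ) ≤ S0 := Nat.cast_nonneg _
  have hS1' : (0 : ℝ) ≤ S1 := Nat.cast_nonneg _
  have hS2' : (0 : ℝ) ≤ S2 := Nat.cast_nonneg _
  have hdR : (1 : ℝ) ≤ F.natDegree := by exact_mod_cast hd
  have hsq : √(Fintype.card K : ℝ) * √(Fintype.card K : ℝ) = Fintype.card K :=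
    Real.mul_self_sqrt (Nat.cast_nonneg _)
  have hsq0 : 0 ≤ √(Fintype.card K : ℝ) := Real.sqrt_nonneg _
  have hq1 : (1 : ℝ) ≤ Fintype.card K := by exact_mod_cast hcard.le
  set Q : ℝ := (Fintype.card K : ℝ) with hQ
  set r : ℝ := √Q with hr
  by_cases hbig : 4 * (F.natDegree + 3) ^ 2 ≤ Fintype.card K
  · have b1 := Pool.Agent.Helper54.PT.card_Sa_le c hc F hF hd hbig 1 (Or.inl rfl)
    have b2 := Pool.Agent.Helper54.PT.card_Sa_le c hc F hF hd hbig (-1) (Or.inr rfl)
    have b1' : (S1 : ℝ) ≤ Q / 2 + (4 * F.natDegree + 5) * r := by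
      convert b1
    have b2' : (S2 : ℝ) ≤ Q / 2 + (4 * F.natDegree + 5) * r := by
      convert b2
    have hr2 : 2 * ((F.natDegree : ℝ) + 3) ≤ r := by
      rw [hr]
      apply Real.le_sqrt_of_sq_le
      have : (4 * ((F.natDegree : ℝ) + 3) ^ 2) ≤ Fintype.card K := by exact_mod_cast hbig
      nlinarith
    rw [hN', abs_le]
    constructor <;> nlinarith
  · have hlt : Fintype.card K < 4 * (F.natDegree + 3) ^ 2 := not_le.1 hbig
    have hltR : Q < (2 * ((F.natDegree : ℝ) + 3)) ^ 2 := by
      have : (Fintype.card K : ℝ) < 4 * ((F.natDegree : ℝ) + 3) ^ 2 := by exact_mod_cast hlt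
      rw [hQ]
      nlinarith
    have hr2 : r ≤ 2 * ((F.natDegree : ℝ) + 3) := by
      rw [hr]
      exact (Real.sqrt_le_left (by positivity)).2 hltR.le
    have hb : |Q + 1 - ((N : ℝ) + i)| ≤ Q + 1 := by
      rw [hN', abs_le]
      constructor <;> nlinarith
    refine hb.trans ?_
    have h7 : Q + 1 ≤ 2 * (r * r) := by rw [hsq]; linarith
    refine h7.trans ?_
    nlinarith [mul_le_mul_of_nonneg_right hr2 hsq0]

theorem hA6 : StA6 := by
  intro k _ _ v f hf hbad
  classical
  have hmax : v.asIdeal.IsMaximal := v.isMaximal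
  let _ : Field (𝓞 k ⧸ v.asIdeal) := Ideal.Quotient.field v.asIdeal
  have _ : Finite (𝓞 k ⧸ v.asIdeal) := Ideal.finiteQuotientOfFreeOfNeBot v.asIdeal v.ne_bot
  let _ : Fintype (𝓞 k ⧸ v.asIdeal) := Fintype.ofFinite _
  unfold Bad at hbad
  simp only [not_or, not_not] at hbad
  obtain ⟨h2, hlc, hsqf⟩ := hbad
  have hq : q v = Fintype.card (𝓞 k ⧸ v.asIdeal) := by
    unfold q
    rw [Ideal.absNorm_apply, Submodule.cardQuot_apply, Nat.card_eq_fintype_card]
  have hchar : ringChar (𝓞 k ⧸ v.asIdeal) ≠ 2 := by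
    intro h
    apply h2
    rw [← Ideal.Quotient.eq_zero_iff_mem]
    have h3 : ((2 : ℕ) : 𝓞 k ⧸ v.asIdeal) = 0 := by
      rw [ringChar.spec, h]
    rw [map_ofNat]
    exact_mod_cast h3
  have hlc' : Ideal.Quotient.mk v.asIdeal f.leadingCoeff ≠ 0 := by
    rwa [Ne, Ideal.Quotient.eq_zero_iff_mem]
  have hdeg : (f.map (Ideal.Quotient.mk v.asIdeal)).natDegree = f.natDegree :=
    natDegree_map_of_leadingCoeff_ne_zero _ hlc'
  have main := fun i hi => a6_field hchar (f.map (Ideal.Quotient.mk v.asIdeal)) hsqf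
    (by rw [hdeg]; exact hf) i hi
  rw [hdeg, ← hq] at main
  unfold tr pts
  simp only [map_one, one_mul]
  split_ifs with hev
  · have := main _ (a6_two (Ideal.Quotient.mk v.asIdeal f.leadingCoeff))
    push_cast
    convert this using 2
  · have := main 1 (by norm_num)
    push_cast
    push_cast at this
    convert this using 2

end Pool.Agent.Helper98.TT
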